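import Pool.Agent.Y372.UF.StmB
import Pool.Agent.Y277.UF.Lift

set_option autoImplicit false

open Polynomial

namespace Pool.Agent.Y372.UF

theorem t_CNT : S_CNT := by
  intro q hq
  have hq0 : q ≠ 0 := by
    intro h0
    apply hq 0
    rw [h0, eval_zero]
  have hfac : C q.leadingCoeff * (q.roots.map (fun a => X - C a)).prod = q :=
    (IsAlgClosed.splits q).eq_prod_roots.symm
  have hev : ∀ z : ℂ, q.eval z = q.leadingCoeff * (q.roots.map (fun a => z - a)).prod := by
    intro z
    conv_lhs => rw [← hfac]
    rw [eval_mul, eval_C, eval_multiset_prod, Multiset.map_map]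
    congr 2
    refine Multiset.map_congr rfl ?_
    intro a _
    simp
  have hs : ∀ z ∈ q.roots, ‖z‖ ≠ 1 := by
    intro z hz hn
    have h3 : q.eval z = 0 := (mem_roots hq0).1 hz
    apply hq (Complex.arg z)
    have h4 : Complex.exp ((Complex.arg z : ℂ) * Complex.I) = z := by
      have h5 := Complex.norm_mul_exp_arg_mul_I z
      rw [hn] at h5
      simpa using h5
    rw [h4]
    exact h3
  obtain ⟨α, hαc, hα, hαd⟩ := Pool.Agent.Y277.UF.many_factors q.leadingCoeff q.roots hs
  refine ⟨(q.roots.filter (fun z => ‖z‖ < 1)).card, α, hαc, ?_, hαd, ?_⟩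
  · intro t
    have h3 := hα t
    rw [← hev] at h3
    exact h3
  · rw [Multiset.card_eq_zero, Multiset.filter_eq_nil]
    constructor
    · intro h z hz h0
      exact h z ((mem_roots hq0).2 h0) (by simpa using hz)
    · intro h z hz hlt
      exact h z (by simpa using hlt) ((mem_roots hq0).1 hz)

end Pool.Agent.Y372.UF
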