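import Pool.Agent.Y372.UF.Stm

set_option autoImplicit false

open Polynomial

namespace Pool.Agent.Y372.UF

theorem aeval_conj' (p : ℝ[X]) (t : ℝ) :
    (aeval (Complex.exp (((-t : ℝ) : ℂ) * Complex.I)) p : ℂ)
      = (starRingEnd ℂ) (aeval (Complex.exp ((t : ℂ) * Complex.I)) p : ℂ) := by
  have h : Complex.exp (((-t : ℝ) : ℂ) * Complex.I)
      = (starRingEnd ℂ) (Complex.exp ((t : ℂ) * Complex.I)) := by
    rw [← Complex.exp_conj]
    congr 1
    simp
  rw [h, Polynomial.aeval_conj]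

theorem top (hG : S_GEN) (hL : S_LIFT) (hA : S_ARC) (p : ℝ[X]) (hd : 1 ≤ p.natDegree)
    (hy : ∀ t ∈ Set.Icc 0 Real.pi, 0 ≤ (aeval (Complex.exp ((t : ℂ) * Complex.I)) p : ℂ).im)
    (hx : ∀ r s t : ℝ, 0 ≤ r → r ≤ s → s ≤ t → t ≤ Real.pi →
      (aeval (Complex.exp ((s : ℂ) * Complex.I)) p : ℂ).re
        ≤ max (aeval (Complex.exp ((r : ℂ) * Complex.I)) p : ℂ).re
            (aeval (Complex.exp ((t : ℂ) * Complex.I)) p : ℂ).re) :
    Set.InjOn (fun z : ℂ => (aeval z p : ℂ)) (Metric.ball (0 : ℂ) 1) := by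
  by_contra h
  obtain ⟨w, hw, hne, z₁, z₂, h12, hz1, hz2, e1, e2⟩ := hG p hd h
  set q : ℂ[X] := p.map (algebraMap ℝ ℂ) - C w with hq
  have hqe : ∀ z : ℂ, q.eval z = (aeval z p : ℂ) - w := by
    intro z
    rw [hq, eval_sub, eval_C, Polynomial.eval_map_algebraMap]
  obtain ⟨α, hα, hα2, hα3⟩ := hL q
    (fun t => by rw [hqe]; exact sub_ne_zero.mpr (hne t))
    ⟨z₁, z₂, h12, hz1, hz2, by rw [hqe, e1, sub_self], by rw [hqe, e2, sub_self]⟩
  have hpos : ∀ t : ℝ, 0 < ‖q.eval (Complex.exp ((t : ℂ) * Complex.I))‖ := by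
    intro t
    rw [norm_pos_iff, hqe]
    exact sub_ne_zero.mpr (hne t)
  have hre : ∀ t : ℝ, (aeval (Complex.exp ((t : ℂ) * Complex.I)) p : ℂ).re - w.re
      = ‖q.eval (Complex.exp ((t : ℂ) * Complex.I))‖ * Real.cos (α t) := by
    intro t
    have := congrArg Complex.re (hα2 t)
    rw [Complex.re_ofReal_mul, Complex.exp_ofReal_mul_I_re] at this
    rw [← this, hqe, Complex.sub_re]
  have him : ∀ t : ℝ, (aeval (Complex.exp ((t : ℂ) * Complex.I)) p : ℂ).im - w.im
      = ‖q.eval (Complex.exp ((t : ℂ) * Complex.I))‖ * Real.sin (α t) := by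
    intro t
    have := congrArg Complex.im (hα2 t)
    rw [Complex.im_ofReal_mul, Complex.exp_ofReal_mul_I_im] at this
    rw [← this, hqe, Complex.sub_im]
  have hcont : Continuous fun t : ℝ => (aeval (Complex.exp ((t : ℂ) * Complex.I)) p : ℂ).re := by
    refine Complex.continuous_re.comp ?_
    refine (Polynomial.continuous_aeval p).comp ?_
    exact Complex.continuous_exp.comp (by fun_prop)
  have key := hA (fun t => (aeval (Complex.exp ((t : ℂ) * Complex.I)) p : ℂ).re) α w.re hcont hα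
    ?_ ?_ ?_ hx
  · linarith
  · intro t ht
    have h1 : (aeval (Complex.exp ((t : ℂ) * Complex.I)) p : ℂ).im ≤ 0 := by
      have h2 := hy (-t) ⟨by linarith [ht.2], by linarith [ht.1]⟩
      rw [aeval_conj', Complex.conj_im] at h2
      linarith
    have h3 := him t
    by_contra h4
    push Not at h4
    have := mul_nonneg (hpos t).le h4
    linarith
  · intro t ht h1
    have h3 := hre t
    by_contra h4
    push Not at h4
    have := mul_neg_of_pos_of_neg (hpos t) h4
    linarith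
  · intro t ht h1
    have h3 := hre t
    by_contra h4
    push Not at h4
    have := mul_pos (hpos t) h4
    linarith

end Pool.Agent.Y372.UF
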