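import Pool.Agent.Y372.UF.Qc
import Pool.Agent.Y372.UF.Top

set_option autoImplicit false

open Polynomial

namespace Pool.Agent.Y372.UF

/-- univalence of F_p for M >= 4 -/
theorem inj_Fp (hC : S_CLO) (hT : S_TRIG) (hRC : S_RC) (hSG : S_SG) (hI : S_INH)
    (hG : S_GEN) (hL : S_LIFT) (hA : S_ARC) {M : ℕ} (hM : 4 ≤ M) :
    Set.InjOn (fun z : ℂ => (aeval z (Fp M) : ℂ)) (Metric.ball (0 : ℂ) 1) := by
  apply top hG hL hA (Fp M) (natDegree_Fp (by omega)) (Fp_im hC (by omega))
  intro r s t hr hrs hst ht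
  rw [Fp_re, Fp_re, Fp_re, max_comm]
  apply qc hC hT hRC hSG hI hM
  · exact Real.neg_one_le_cos t
  · exact Real.cos_le_cos_of_nonneg_of_le_pi (by linarith) ht hst
  · exact Real.cos_le_cos_of_nonneg_of_le_pi hr (by linarith) hrs
  · exact Real.cos_le_one r

theorem sum_eq (hCo : S_COEF) {N : ℕ} (hN : 1 ≤ N) (z : ℂ) :
    (∑ j ∈ Finset.Icc 1 N,
            (((Polynomial.eval (Real.cos (Real.pi / ((N : ℝ) + 2)))
                  (Polynomial.derivative
                    (Polynomial.Chebyshev.U ℝ ((N : ℤ) - (j : ℤ) + 1))) *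
                Polynomial.eval (Real.cos (Real.pi / ((N : ℝ) + 2)))
                  (Polynomial.Chebyshev.U ℝ ((j : ℤ) - 1)) /
                Polynomial.eval (Real.cos (Real.pi / ((N : ℝ) + 2)))
                  (Polynomial.derivative (Polynomial.Chebyshev.U ℝ (N : ℤ)))) : ℝ) : ℂ) *
              z ^ j) = (aeval z (Fp (N + 2)) : ℂ) := by
  have h1 : (aeval z (Fp (N + 2)) : ℂ) = ∑ j ∈ Finset.range (N + 2), ((ac (N + 2) j : ℝ) : ℂ) * z ^ j := by
    unfold Fp
    rw [map_sum]
    refine Finset.sum_congr rfl fun j _ => ?_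
    rw [map_mul, aeval_C, map_pow, aeval_X]
    rfl
  rw [h1, Finset.sum_range_succ, Finset.sum_range_succ', ac_zero]
  have h2 : ac (N + 2) (N + 1) = 0 := ac_last (M := N + 2) (by omega)
  rw [h2]
  have h3 : ∑ j ∈ Finset.Icc 1 N, ((ac (N + 2) j : ℝ) : ℂ) * z ^ j
      = ∑ k ∈ Finset.range N, ((ac (N + 2) (k + 1) : ℝ) : ℂ) * z ^ (k + 1) := by
    rw [Finset.range_eq_Ico, Finset.sum_Ico_add' (fun k => ((ac (N + 2) k : ℝ) : ℂ) * z ^ k) 0 N 1]
    apply Finset.sum_congr _ (fun _ _ => rfl)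
    ext k
    simp only [Finset.mem_Icc, Finset.mem_Ico]
    omega
  rw [← h3]
  simp only [Complex.ofReal_zero, zero_mul, add_zero]
  refine Finset.sum_congr rfl fun j hj => ?_
  rw [hCo N hN j hj]

theorem main_ (hCo : S_COEF) (hC : S_CLO) (hT : S_TRIG) (hRC : S_RC) (hSG : S_SG) (hI : S_INH)
    (hG : S_GEN) (hL : S_LIFT) (hA : S_ARC) :
    ∀ N : ℕ, 1 ≤ N →
      Set.InjOn
        (fun z : ℂ =>
          ∑ j ∈ Finset.Icc 1 N,
            (((Polynomial.eval (Real.cos (Real.pi / ((N : ℝ) + 2)))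
                  (Polynomial.derivative
                    (Polynomial.Chebyshev.U ℝ ((N : ℤ) - (j : ℤ) + 1))) *
                Polynomial.eval (Real.cos (Real.pi / ((N : ℝ) + 2)))
                  (Polynomial.Chebyshev.U ℝ ((j : ℤ) - 1)) /
                Polynomial.eval (Real.cos (Real.pi / ((N : ℝ) + 2)))
                  (Polynomial.derivative (Polynomial.Chebyshev.U ℝ (N : ℤ)))) : ℝ) : ℂ) *
              z ^ j)
        (Metric.ball (0 : ℂ) 1) := by
  intro N hN
  have h1 := fun z : ℂ => sum_eq hCo hN z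
  simp only [h1]
  rcases Nat.lt_or_ge N 2 with h | h
  · obtain rfl : N = 1 := by omega
    have h2 : ∀ z : ℂ, (aeval z (Fp (1 + 2)) : ℂ) = z := by
      intro z
      have e : Fp (1 + 2) = X := by
        unfold Fp
        rw [show (1 + 2 : ℕ) = 3 from rfl]
        rw [Finset.sum_range_succ, Finset.sum_range_succ, Finset.sum_range_succ, Finset.sum_range_zero,
          ac_zero, ac_one (by norm_num), show ac 3 2 = 0 from ac_last (M := 3) (by norm_num)]
        simp
      rw [e, aeval_X]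
    simp only [h2]
    exact fun a _ b _ hab => hab
  · exact inj_Fp hC hT hRC hSG hI hG hL hA (by omega)

end Pool.Agent.Y372.UF
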