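import Mathlib

/-!
Project UF (helper372): MP_54ecb1_an, univalence of the extremal Chebyshev polynomials.
Definitions and statements.  M = N + 2, phi = pi / M.
-/

set_option autoImplicit false

open Polynomial

namespace Pool.Agent.Y372.UF

/-- the angle pi / M -/
noncomputable def ph (M : ℕ) : ℝ := Real.pi / (M : ℝ)

/-- the coefficients a_j (a_0 = a_(M-1) = 0, a_1 = 1) -/
noncomputable def ac (M j : ℕ) : ℝ :=
  Real.sin ((j : ℝ) * ph M) *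
      (Real.sin ((j : ℝ) * ph M) * Real.cos (ph M)
        + ((M : ℝ) - (j : ℝ)) * Real.cos ((j : ℝ) * ph M) * Real.sin (ph M))
    / ((M : ℝ) * Real.cos (ph M) * Real.sin (ph M) ^ 2)

/-- the polynomial sum_{j<M} a_j z^j -/
noncomputable def Fp (M : ℕ) : ℝ[X] := ∑ j ∈ Finset.range M, C (ac M j) * X ^ j

/-- its real part on the circle, in the variable X = cos theta: sum_{j<M} a_j T_j -/
noncomputable def Xp (M : ℕ) : ℝ[X] :=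
  ∑ j ∈ Finset.range M, C (ac M j) * Chebyshev.T ℝ (j : ℤ)

/-- f = (1 + X) U_{M-1}, so f (cos t) = sin (M t) cot (t/2) -/
noncomputable def fp (M : ℕ) : ℝ[X] := (1 + X) * Chebyshev.U ℝ ((M : ℤ) - 1)

/-- P = f''' -/
noncomputable def Pp (M : ℕ) : ℝ[X] := derivative^[3] (fp M)

/-- UF-COEF -/
def S_COEF : Prop :=
  ∀ N : ℕ, 1 ≤ N → ∀ j ∈ Finset.Icc 1 N,
    Polynomial.eval (Real.cos (Real.pi / ((N : ℝ) + 2)))
        (Polynomial.derivative (Polynomial.Chebyshev.U ℝ ((N : ℤ) - (j : ℤ) + 1))) *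
      Polynomial.eval (Real.cos (Real.pi / ((N : ℝ) + 2)))
        (Polynomial.Chebyshev.U ℝ ((j : ℤ) - 1)) /
      Polynomial.eval (Real.cos (Real.pi / ((N : ℝ) + 2)))
        (Polynomial.derivative (Polynomial.Chebyshev.U ℝ (N : ℤ))) = ac (N + 2) j

/-- UF-CLO -/
def S_CLO : Prop :=
  ∀ M : ℕ, 3 ≤ M → ∀ t : ℝ,
    ((Real.sin (t / 2) * (Real.cos t - Real.cos (2 * ph M)) ^ 2 : ℝ) : ℂ) *
        (aeval (Complex.exp ((t : ℂ) * Complex.I)) (Fp M) : ℂ)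
      = ((Real.sin (t / 2) * (Real.cos t - Real.cos (2 * ph M)) / 2 : ℝ) : ℂ)
        + ((2 * Real.sin (ph M) ^ 2 / (M : ℝ) * Real.cos (t / 2) * Real.sin ((M : ℝ) * t / 2) : ℝ) : ℂ)
          * Complex.exp ((((M : ℝ) * t / 2 : ℝ) : ℂ) * Complex.I)

/-- UF-RC: root counting for a third derivative -/
def S_RC : Prop :=
  ∀ (f : ℝ[X]) (k : ℕ) (z : Fin k → ℝ) (b : ℝ), StrictMono z → (∀ i, f.eval (z i) = 0) →
    (∀ i, z i ≤ b) → f.natDegree = k + 2 → 2 ≤ k → 0 < f.leadingCoeff →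
    (derivative^[3] f).eval b < 0 →
    ∀ x y : ℝ, b ≤ x → x < y → 0 < (derivative^[3] f).eval x → 0 ≤ (derivative^[3] f).eval y

/-- UF-SG -/
def S_SG : Prop := ∀ M : ℕ, 4 ≤ M → (Pp M).eval (Real.cos (3 * ph M)) < 0

/-- UF-INH: inheritance of one change of sign, from minus to plus -/
def S_INH : Prop :=
  ∀ (v P : ℝ[X]) (κ c b : ℝ), 0 < κ → b < c → c < 1 →
    derivative^[2] ((X - C c) ^ 3 * v) = C κ * (X - C c) * P →
    (∀ x y : ℝ, b ≤ x → x < y → y ≤ 1 → 0 < P.eval x → 0 ≤ P.eval y) →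
    ∀ x y : ℝ, b ≤ x → x < y → y ≤ 1 → 0 < v.eval x → 0 ≤ v.eval y

/-- UF-TRIG: the range t ≥ 3 pi / M -/
def S_TRIG : Prop :=
  ∀ M : ℕ, 4 ≤ M → ∀ t : ℝ, 3 * ph M ≤ t → t < Real.pi →
    Real.sin (ph M) ^ 2 / (M : ℝ) *
        (1 / Real.sin t + Real.sin t / (Real.sin (t / 2) ^ 2 - Real.sin (ph M) ^ 2))
        * Real.sin ((M : ℝ) * t)
      ≤ Real.sin (t / 2) ^ 2 + Real.sin (ph M) ^ 2 * Real.cos ((M : ℝ) * t)

/-- UF-GEN: a non-injective real polynomial takes a generic value twice -/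
def S_GEN : Prop :=
  ∀ p : ℝ[X], 1 ≤ p.natDegree →
    ¬ Set.InjOn (fun z : ℂ => (aeval z p : ℂ)) (Metric.ball (0 : ℂ) 1) →
    ∃ w : ℂ, 0 < w.im ∧ (∀ t : ℝ, (aeval (Complex.exp ((t : ℂ) * Complex.I)) p : ℂ) ≠ w) ∧
      ∃ z₁ z₂ : ℂ, z₁ ≠ z₂ ∧ z₁ ∈ Metric.ball (0 : ℂ) 1 ∧ z₂ ∈ Metric.ball (0 : ℂ) 1 ∧
        (aeval z₁ p : ℂ) = w ∧ (aeval z₂ p : ℂ) = w

/-- UF-LIFT: continuous argument of a polynomial with two roots in the disc -/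
def S_LIFT : Prop :=
  ∀ q : ℂ[X], (∀ t : ℝ, q.eval (Complex.exp ((t : ℂ) * Complex.I)) ≠ 0) →
    (∃ z₁ z₂ : ℂ, z₁ ≠ z₂ ∧ z₁ ∈ Metric.ball (0 : ℂ) 1 ∧ z₂ ∈ Metric.ball (0 : ℂ) 1 ∧
        q.eval z₁ = 0 ∧ q.eval z₂ = 0) →
    ∃ α : ℝ → ℝ, Continuous α ∧
      (∀ t : ℝ, q.eval (Complex.exp ((t : ℂ) * Complex.I))
        = (‖q.eval (Complex.exp ((t : ℂ) * Complex.I))‖ : ℂ) * Complex.exp ((α t : ℂ) * Complex.I)) ∧
      4 * Real.pi ≤ α Real.pi - α (-Real.pi)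

/-- UF-ARC: four arcs in half planes -/
def S_ARC : Prop :=
  ∀ (u α : ℝ → ℝ) (a : ℝ), Continuous u → Continuous α →
    (∀ t ∈ Set.Icc (-Real.pi) 0, Real.sin (α t) < 0) →
    (∀ t ∈ Set.Icc 0 Real.pi, a ≤ u t → 0 ≤ Real.cos (α t)) →
    (∀ t ∈ Set.Icc 0 Real.pi, u t ≤ a → Real.cos (α t) ≤ 0) →
    (∀ r s t : ℝ, 0 ≤ r → r ≤ s → s ≤ t → t ≤ Real.pi → u s ≤ max (u r) (u t)) →
    α Real.pi - α (-Real.pi) < 4 * Real.pi

end Pool.Agent.Y372.UF
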