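import Pool.Agent.Y372.UF.Fin

set_option autoImplicit false

open Polynomial

namespace Pool.Agent.Y372.UF

theorem real_node (hC : S_CLO) {M : ℕ} (hM : 5 ≤ M) :
    (aeval (Complex.exp (((4 * ph M : ℝ) : ℂ) * Complex.I)) (Fp M) : ℂ).im = 0 := by
  have hp := ph_pos (M := M) (by omega)
  have h := M_ph (M := M) (by omega)
  have hM5 : (5 : ℝ) ≤ M := by exact_mod_cast hM
  have h4 : 4 * ph M < Real.pi := by nlinarith
  have hc := hC M (by omega) (4 * ph M)
  have h1 := congrArg Complex.im hc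
  rw [Complex.im_ofReal_mul, Complex.add_im, Complex.ofReal_im, Complex.im_ofReal_mul] at h1
  have h2 : Real.sin ((M : ℝ) * (4 * ph M) / 2) = 0 := by
    have : (M : ℝ) * (4 * ph M) / 2 = 2 * Real.pi := by linear_combination 2 * h
    rw [this, Real.sin_two_pi]
  rw [h2] at h1
  have h3 : Real.sin (4 * ph M / 2) * (Real.cos (4 * ph M) - Real.cos (2 * ph M)) ^ 2 ≠ 0 := by
    apply mul_ne_zero
    · apply ne_of_gt
      apply Real.sin_pos_of_pos_of_lt_pi <;> linarith
    · apply pow_ne_zero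
      have := Real.cos_lt_cos_of_nonneg_of_le_pi (by positivity : (0:ℝ) ≤ 2 * ph M) h4.le
        (by linarith : 2 * ph M < 4 * ph M)
      exact (sub_neg.mpr this).ne
  have h5 : Real.sin (4 * ph M / 2) * (Real.cos (4 * ph M) - Real.cos (2 * ph M)) ^ 2 *
      (aeval (Complex.exp (((4 * ph M : ℝ) : ℂ) * Complex.I)) (Fp M) : ℂ).im = 0 := by
    rw [h1]; ring
  rcases mul_eq_zero.mp h5 with h6 | h6
  · exact absurd h6 h3
  · exact h6

theorem not_inj_ge (hC : S_CLO) {M : ℕ} (hM : 5 ≤ M) {R : ℝ} (hR : 1 < R) :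
    ¬ Set.InjOn (fun z : ℂ => (aeval z (Fp M) : ℂ)) (Metric.ball (0 : ℂ) R) := by
  intro hinj
  have hp := ph_pos (M := M) (by omega)
  have h := M_ph (M := M) (by omega)
  have hM5 : (5 : ℝ) ≤ M := by exact_mod_cast hM
  have h4 : 4 * ph M < Real.pi := by nlinarith
  have h0 := real_node hC hM
  have hconj := aeval_conj' (Fp M) (4 * ph M)
  have h1 : (starRingEnd ℂ) (aeval (Complex.exp (((4 * ph M : ℝ) : ℂ) * Complex.I)) (Fp M) : ℂ)
      = (aeval (Complex.exp (((4 * ph M : ℝ) : ℂ) * Complex.I)) (Fp M) : ℂ) :=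
    Complex.conj_eq_iff_im.mpr h0
  rw [h1] at hconj
  have hmem : ∀ t : ℝ, Complex.exp ((t : ℂ) * Complex.I) ∈ Metric.ball (0 : ℂ) R := by
    intro t
    rw [mem_ball_zero_iff, Complex.norm_exp_ofReal_mul_I]
    exact hR
  have h2 := hinj (hmem (-(4 * ph M))) (hmem (4 * ph M)) hconj
  have h3 := congrArg Complex.im h2
  rw [Complex.exp_ofReal_mul_I_im, Complex.exp_ofReal_mul_I_im, Real.sin_neg] at h3
  have h5 : 0 < Real.sin (4 * ph M) := Real.sin_pos_of_pos_of_lt_pi (by linarith) h4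
  linarith

theorem Fp_four (z : ℂ) : (aeval z (Fp 4) : ℂ) = z + z ^ 2 / 2 := by
  have e : Fp 4 = X + C (1 / 2) * X ^ 2 := by
    unfold Fp
    rw [Finset.sum_range_succ, Finset.sum_range_succ, Finset.sum_range_succ, Finset.sum_range_succ,
      Finset.sum_range_zero, ac_zero, ac_one (by norm_num),
      show ac 4 3 = 0 from ac_last (M := 4) (by norm_num)]
    have h2 : ac 4 2 = 1 / 2 := by
      unfold ac
      have hs := sin_ph_pos (M := 4) (by norm_num)
      have hc := cos_ph_pos (M := 4) (by norm_num)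
      have e1 : ((2 : ℕ) : ℝ) * ph 4 = Real.pi / 2 := by
        unfold ph; push_cast; ring
      rw [e1, Real.sin_pi_div_two, Real.cos_pi_div_two]
      have e2 : ph 4 = Real.pi / 4 := by unfold ph; push_cast; ring
      have e3 : Real.sin (ph 4) ^ 2 = 1 / 2 := by
        rw [e2, Real.sin_pi_div_four]
        rw [div_pow, Real.sq_sqrt (by norm_num)]
        norm_num
      rw [e3]
      have : Real.cos (ph 4) ≠ 0 := hc.ne'
      field_simp
      push_cast
      ring
    rw [h2]
    simp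
  rw [e, map_add, map_mul, aeval_X, aeval_C, map_pow, aeval_X]
  have : (algebraMap ℝ ℂ) (1 / 2) = 1 / 2 := by simp
  rw [this]
  ring

theorem not_inj (hC : S_CLO) {M : ℕ} (hM : 4 ≤ M) {R : ℝ} (hR : 1 < R) :
    ¬ Set.InjOn (fun z : ℂ => (aeval z (Fp M) : ℂ)) (Metric.ball (0 : ℂ) R) := by
  rcases Nat.lt_or_ge M 5 with h | h
  · obtain rfl : M = 4 := by omega
    intro hinj
    set ε : ℝ := (min R 2 - 1) / 2 with hε
    have hm : 1 < min R 2 := lt_min hR (by norm_num)
    have hm2 : min R 2 ≤ R := min_le_left _ _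
    have hm3 : min R 2 ≤ 2 := min_le_right _ _
    have hε0 : 0 < ε := by rw [hε]; linarith
    have hε1 : ε < 1 := by rw [hε]; linarith
    have h1 : (((-1 + ε : ℝ)) : ℂ) ∈ Metric.ball (0 : ℂ) R := by
      rw [mem_ball_zero_iff, Complex.norm_real, Real.norm_eq_abs, abs_lt]
      constructor <;> linarith
    have h2 : (((-1 - ε : ℝ)) : ℂ) ∈ Metric.ball (0 : ℂ) R := by
      rw [mem_ball_zero_iff, Complex.norm_real, Real.norm_eq_abs, abs_lt]
      constructor
      · rw [hε]; linarith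
      · linarith
    have h3 := hinj h1 h2 (by
      simp only [Fp_four]
      push_cast
      ring)
    have h4 : (-1 + ε : ℝ) = -1 - ε := by exact_mod_cast h3
    linarith
  · exact not_inj_ge hC h hR

end Pool.Agent.Y372.UF
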