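import Pool.Agent.Y372.UF.Stm

/-!
Project UF (helper372), geometry of the image: vertical convexity of the upper half.
-/

set_option autoImplicit false

open Polynomial

namespace Pool.Agent.Y372.UF

/-- UF-CNT: continuous argument of a polynomial without zeros on the unit circle; its change is
`2 pi` times a natural number which is zero iff there is no root in the disc, and at least two if
there are two different roots. -/
def S_CNT : Prop :=
  ∀ q : ℂ[X], (∀ t : ℝ, q.eval (Complex.exp ((t : ℂ) * Complex.I)) ≠ 0) →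
    ∃ (k : ℕ) (α : ℝ → ℝ), Continuous α ∧
      (∀ t : ℝ, q.eval (Complex.exp ((t : ℂ) * Complex.I))
        = (‖q.eval (Complex.exp ((t : ℂ) * Complex.I))‖ : ℂ) * Complex.exp ((α t : ℂ) * Complex.I)) ∧
      α Real.pi - α (-Real.pi) = 2 * Real.pi * (k : ℝ) ∧
      (k = 0 ↔ ∀ z ∈ Metric.ball (0 : ℂ) 1, q.eval z ≠ 0)

/-- UF-VC: if a real polynomial maps the upper half circle into the closed upper half plane, with
quasi-convex real part there, then the upper half of the image of the disc is convex in the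
vertical direction. -/
def S_VC : Prop :=
  ∀ p : ℝ[X], 1 ≤ p.natDegree →
    (∀ t ∈ Set.Icc 0 Real.pi, 0 ≤ (aeval (Complex.exp ((t : ℂ) * Complex.I)) p : ℂ).im) →
    (∀ r s t : ℝ, 0 ≤ r → r ≤ s → s ≤ t → t ≤ Real.pi →
      (aeval (Complex.exp ((s : ℂ) * Complex.I)) p : ℂ).re
        ≤ max (aeval (Complex.exp ((r : ℂ) * Complex.I)) p : ℂ).re
            (aeval (Complex.exp ((t : ℂ) * Complex.I)) p : ℂ).re) →
    Set.InjOn (fun z : ℂ => (aeval z p : ℂ)) (Metric.ball (0 : ℂ) 1) →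
    ∀ w₁ w₂ w₃ : ℂ, w₁.re = w₂.re → w₂.re = w₃.re → 0 < w₁.im → w₁.im < w₂.im → w₂.im < w₃.im →
      w₁ ∈ (fun z : ℂ => (aeval z p : ℂ)) '' Metric.ball (0 : ℂ) 1 →
      w₃ ∈ (fun z : ℂ => (aeval z p : ℂ)) '' Metric.ball (0 : ℂ) 1 →
      w₂ ∈ (fun z : ℂ => (aeval z p : ℂ)) '' Metric.ball (0 : ℂ) 1

end Pool.Agent.Y372.UF
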