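import Pool.Agent.Y372.UF.Stm

set_option autoImplicit false

open Polynomial

namespace Pool.Agent.Y372.UF

theorem ph_pos {M : ℕ} (hM : 1 ≤ M) : 0 < ph M := by
  unfold ph
  have : (0 : ℝ) < M := by exact_mod_cast hM
  positivity

theorem M_ph {M : ℕ} (hM : 1 ≤ M) : (M : ℝ) * ph M = Real.pi := by
  unfold ph
  have : (M : ℝ) ≠ 0 := by
    have : (0 : ℝ) < M := by exact_mod_cast hM
    exact this.ne'
  field_simp

theorem ph_lt {M : ℕ} (hM : 3 ≤ M) : 3 * ph M ≤ Real.pi := by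
  have h := M_ph (M := M) (by omega)
  have h2 : (3 : ℝ) ≤ M := by exact_mod_cast hM
  have := ph_pos (M := M) (by omega)
  nlinarith

theorem sin_ph_pos {M : ℕ} (hM : 2 ≤ M) : 0 < Real.sin (ph M) := by
  have h := M_ph (M := M) (by omega)
  have h2 : (2 : ℝ) ≤ M := by exact_mod_cast hM
  have := ph_pos (M := M) (by omega)
  apply Real.sin_pos_of_pos_of_lt_pi this
  nlinarith

theorem cos_ph_pos {M : ℕ} (hM : 3 ≤ M) : 0 < Real.cos (ph M) := by
  have h := M_ph (M := M) (by omega)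
  have h2 : (3 : ℝ) ≤ M := by exact_mod_cast hM
  have := ph_pos (M := M) (by omega)
  apply Real.cos_pos_of_mem_Ioo
  constructor
  · linarith [Real.pi_pos]
  · nlinarith [Real.pi_pos]

theorem exp_cos_sin (t : ℝ) (j : ℕ) :
    Complex.exp ((t : ℂ) * Complex.I) ^ j
      = ((Real.cos (j * t) : ℝ) : ℂ) + ((Real.sin (j * t) : ℝ) : ℂ) * Complex.I := by
  rw [← Complex.exp_nat_mul]
  have : (j : ℂ) * ((t : ℂ) * Complex.I) = (((j : ℝ) * t : ℝ) : ℂ) * Complex.I := by
    push_cast; ring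
  rw [this, Complex.exp_mul_I]
  push_cast
  rfl

theorem Fp_re (M : ℕ) (t : ℝ) :
    (aeval (Complex.exp ((t : ℂ) * Complex.I)) (Fp M) : ℂ).re = (Xp M).eval (Real.cos t) := by
  unfold Fp Xp
  rw [map_sum, Complex.re_sum, eval_finsetSum]
  refine Finset.sum_congr rfl fun j _ => ?_
  rw [map_mul, aeval_C, map_pow, aeval_X, exp_cos_sin, eval_mul, eval_C,
    Chebyshev.T_real_cos]
  have e : (algebraMap ℝ ℂ) (ac M j) = ((ac M j : ℝ) : ℂ) := rfl
  rw [e, Complex.re_ofReal_mul, Complex.add_re, Complex.ofReal_re, Complex.re_ofReal_mul,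
    Complex.I_re, mul_zero, add_zero, Int.cast_natCast]

theorem fp_eval_mul_sin {M : ℕ} (t : ℝ) :
    (fp M).eval (Real.cos t) * Real.sin t = (1 + Real.cos t) * Real.sin ((M : ℝ) * t) := by
  unfold fp
  rw [eval_mul, mul_assoc, Chebyshev.U_real_cos]
  simp

/-- half angle form: f(cos t) sin(t/2) = cos (t/2) sin (M t) for t in (0, pi) -/
theorem fp_eval_half {M : ℕ} {t : ℝ} (h0 : 0 < t) (h1 : t < Real.pi) :
    (fp M).eval (Real.cos t) * Real.sin (t / 2)
      = Real.cos (t / 2) * Real.sin ((M : ℝ) * t) := by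
  have hs : 0 < Real.sin (t / 2) := Real.sin_pos_of_pos_of_lt_pi (by linarith) (by linarith)
  have hc : 0 < Real.cos (t / 2) := Real.cos_pos_of_mem_Ioo ⟨by linarith, by linarith⟩
  have e1 : Real.sin t = 2 * Real.sin (t / 2) * Real.cos (t / 2) := by
    rw [← Real.sin_two_mul]; congr 1; ring
  have e2 : Real.cos t = 2 * Real.cos (t / 2) ^ 2 - 1 := by
    rw [← Real.cos_two_mul]; congr 1; ring
  have h := fp_eval_mul_sin (M := M) t
  have e3 : 1 + Real.cos t = 2 * Real.cos (t / 2) ^ 2 := by rw [e2]; ring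
  rw [e3, e1] at h
  have : (2 * Real.cos (t / 2)) * ((fp M).eval (Real.cos t) * Real.sin (t / 2))
      = (2 * Real.cos (t / 2)) * (Real.cos (t / 2) * Real.sin ((M : ℝ) * t)) := by
    linear_combination h
  exact mul_left_cancel₀ (by positivity) this

/-- the polynomial identity (X-c)^2 x = (X-c)/2 + kappa f -/
theorem fp_id (hC : S_CLO) {M : ℕ} (hM : 3 ≤ M) :
    (X - C (Real.cos (2 * ph M))) ^ 2 * Xp M
      = C (1 / 2) * (X - C (Real.cos (2 * ph M)))
        + C (Real.sin (ph M) ^ 2 / (M : ℝ)) * fp M := by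
  apply Polynomial.eq_of_infinite_eval_eq
  apply Set.Infinite.mono (s := Set.Ioo (-1 : ℝ) 1) ?_ (Set.Ioo_infinite (by norm_num))
  intro x hx
  obtain ⟨t, ht0, ht1, rfl⟩ : ∃ t : ℝ, 0 < t ∧ t < Real.pi ∧ Real.cos t = x := by
    refine ⟨Real.arccos x, Real.arccos_pos.mpr hx.2, ?_, Real.cos_arccos hx.1.le hx.2.le⟩
    refine lt_of_le_of_ne (Real.arccos_le_pi x) ?_
    intro h
    rw [Real.arccos_eq_pi] at h
    linarith [hx.1]
  have hs : 0 < Real.sin (t / 2) := Real.sin_pos_of_pos_of_lt_pi (by linarith) (by linarith)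
  have hc := hC M hM t
  have h1 := congrArg Complex.re hc
  rw [Complex.re_ofReal_mul, Complex.add_re, Complex.ofReal_re, Complex.re_ofReal_mul,
    Complex.exp_ofReal_mul_I_re, Fp_re] at h1
  have h2 := fp_eval_half (M := M) ht0 ht1
  have e3 : Real.sin ((M : ℝ) * t) = 2 * Real.sin ((M : ℝ) * t / 2) * Real.cos ((M : ℝ) * t / 2) := by
    rw [← Real.sin_two_mul]; congr 1; ring
  simp only [Set.mem_ofPred_eq, eval_mul, eval_add, eval_pow, eval_sub, eval_X, eval_C]
  have : Real.sin (t / 2) * ((Real.cos t - Real.cos (2 * ph M)) ^ 2 * (Xp M).eval (Real.cos t))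
      = Real.sin (t / 2) * (1 / 2 * (Real.cos t - Real.cos (2 * ph M))
        + Real.sin (ph M) ^ 2 / (M : ℝ) * (fp M).eval (Real.cos t)) := by
    rw [e3] at h2
    linear_combination h1 - Real.sin (ph M) ^ 2 / (M : ℝ) * h2
  exact mul_left_cancel₀ hs.ne' this

/-- nonnegativity of the imaginary part on the upper half circle -/
theorem Fp_im (hC : S_CLO) {M : ℕ} (hM : 3 ≤ M) :
    ∀ t ∈ Set.Icc 0 Real.pi,
      0 ≤ (aeval (Complex.exp ((t : ℂ) * Complex.I)) (Fp M) : ℂ).im := by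
  have hcont : Continuous fun t : ℝ => (aeval (Complex.exp ((t : ℂ) * Complex.I)) (Fp M) : ℂ).im := by
    refine Complex.continuous_im.comp ?_
    refine (Polynomial.continuous_aeval (Fp M)).comp ?_
    exact Complex.continuous_exp.comp (by fun_prop)
  have hgood : ∀ t : ℝ, 0 < t → t < Real.pi → Real.cos t ≠ Real.cos (2 * ph M) →
      0 ≤ (aeval (Complex.exp ((t : ℂ) * Complex.I)) (Fp M) : ℂ).im := by
    intro t ht0 ht1 hne
    have hs : 0 < Real.sin (t / 2) := Real.sin_pos_of_pos_of_lt_pi (by linarith) (by linarith)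
    have hc2 : 0 < Real.cos (t / 2) := Real.cos_pos_of_mem_Ioo ⟨by linarith, by linarith⟩
    have hc := hC M hM t
    have h1 := congrArg Complex.im hc
    rw [Complex.im_ofReal_mul, Complex.add_im, Complex.ofReal_im, Complex.im_ofReal_mul,
      Complex.exp_ofReal_mul_I_im] at h1
    have hD : 0 < Real.sin (t / 2) * (Real.cos t - Real.cos (2 * ph M)) ^ 2 := by
      have : Real.cos t - Real.cos (2 * ph M) ≠ 0 := sub_ne_zero.mpr hne
      positivity
    by_contra hneg
    push Not at hneg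
    have h3 := mul_neg_of_pos_of_neg hD hneg
    have h4 : 0 ≤ 2 * Real.sin (ph M) ^ 2 / (M : ℝ) * Real.cos (t / 2) * Real.sin ((M : ℝ) * t / 2)
        * Real.sin ((M : ℝ) * t / 2) := by
      have : 2 * Real.sin (ph M) ^ 2 / (M : ℝ) * Real.cos (t / 2) * Real.sin ((M : ℝ) * t / 2)
        * Real.sin ((M : ℝ) * t / 2) = 2 * Real.sin (ph M) ^ 2 / (M : ℝ) * Real.cos (t / 2) *
          Real.sin ((M : ℝ) * t / 2) ^ 2 := by ring
      rw [this]
      positivity
    linarith
  intro t ht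
  by_contra hneg
  push Not at hneg
  obtain ⟨ε, hε, hball⟩ := Metric.isOpen_iff.mp (isOpen_lt hcont continuous_const) t hneg
  have hlt : max 0 (t - ε) < min Real.pi (t + ε) := by
    rw [lt_min_iff]
    constructor
    · rw [max_lt_iff]
      exact ⟨Real.pi_pos, by linarith [ht.2]⟩
    · rw [max_lt_iff]
      exact ⟨by linarith [ht.1], by linarith⟩
  -- two points in the interval, at most one is 2 ph
  have hinf := Set.Ioo_infinite hlt
  obtain ⟨s, hs, hs2⟩ : ∃ s ∈ Set.Ioo (max 0 (t - ε)) (min Real.pi (t + ε)), s ∉ ({2 * ph M} : Set ℝ) :=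
    (hinf.sdiff (Set.finite_singleton _)).nonempty
  have hs0 : 0 < s := lt_of_le_of_lt (le_max_left _ _) hs.1
  have hs1 : s < Real.pi := lt_of_lt_of_le hs.2 (min_le_left _ _)
  have hs3 : t - ε < s := lt_of_le_of_lt (le_max_right _ _) hs.1
  have hs4 : s < t + ε := lt_of_lt_of_le hs.2 (min_le_right _ _)
  have hb : s ∈ Metric.ball t ε := by
    rw [Metric.mem_ball, Real.dist_eq, abs_lt]
    constructor <;> linarith
  have h5 := hball hb
  simp only [Set.mem_ofPred_eq] at h5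
  have h6 := hgood s hs0 hs1 ?_
  · linarith
  · intro heq
    apply hs2
    have hp := ph_pos (M := M) (by omega)
    have hp3 := ph_lt hM
    exact Real.injOn_cos ⟨hs0.le, hs1.le⟩ ⟨by linarith, by linarith⟩ heq

theorem ac_one {M : ℕ} (hM : 3 ≤ M) : ac M 1 = 1 := by
  have hs := sin_ph_pos (M := M) (by omega)
  have hc := cos_ph_pos hM
  have hM0 : (M : ℝ) ≠ 0 := by
    have : (0 : ℝ) < M := by exact_mod_cast (by omega : 0 < M)
    exact this.ne'
  unfold ac
  push_cast
  rw [one_mul]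
  rw [div_eq_one_iff_eq (by positivity)]
  ring

theorem ac_zero (M : ℕ) : ac M 0 = 0 := by
  unfold ac
  simp

theorem ac_last {M : ℕ} (hM : 1 ≤ M) : ac M (M - 1) = 0 := by
  have h := M_ph hM
  have e1 : (((M - 1 : ℕ) : ℝ)) * ph M = Real.pi - ph M := by
    rw [Nat.cast_sub hM, sub_mul, h]; simp
  unfold ac
  rw [e1, Real.sin_pi_sub, Real.cos_pi_sub, Nat.cast_sub hM]
  push_cast
  ring_nf

theorem natDegree_Fp {M : ℕ} (hM : 3 ≤ M) : 1 ≤ (Fp M).natDegree := by
  apply Polynomial.le_natDegree_of_ne_zero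
  unfold Fp
  rw [finsetSum_coeff]
  simp only [coeff_C_mul, coeff_X_pow]
  rw [Finset.sum_eq_single 1]
  · rw [ac_one hM]; norm_num
  · intro b _ hb
    rw [if_neg (Ne.symm hb)]; simp
  · intro h
    exact absurd (Finset.mem_range.mpr (by omega)) h

end Pool.Agent.Y372.UF
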