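import Pool.Agent.Y372.UF.Alg

set_option autoImplicit false

open Polynomial

namespace Pool.Agent.Y372.UF

/-- the zeros of f which are at most cos (3 pi / M) -/
noncomputable def zz (M : ℕ) (i : Fin (M - 2)) : ℝ := Real.cos (((M : ℝ) - (i : ℕ)) * ph M)

theorem zz_mono {M : ℕ} (hM : 4 ≤ M) : StrictMono (zz M) := by
  intro i j hij
  have hp := ph_pos (M := M) (by omega)
  have h := M_ph (M := M) (by omega)
  have hi : ((i : ℕ) : ℝ) < (j : ℕ) := by exact_mod_cast hij
  have hj : (((j : ℕ)) : ℝ) ≤ M - 3 := by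
    have : (j : ℕ) + 3 ≤ M := by have := j.2; omega
    have : (((j : ℕ) + 3 : ℕ) : ℝ) ≤ M := by exact_mod_cast this
    push_cast at this
    linarith
  have hi0 : (0 : ℝ) ≤ (i : ℕ) := Nat.cast_nonneg _
  unfold zz
  apply Real.strictAntiOn_cos
  · constructor
    · have : 0 ≤ (M : ℝ) - (j : ℕ) := by linarith
      positivity
    · nlinarith
  · constructor
    · have : 0 ≤ (M : ℝ) - (i : ℕ) := by linarith
      positivity
    · nlinarith
  · nlinarith

theorem zz_zero {M : ℕ} (hM : 4 ≤ M) (i : Fin (M - 2)) : (fp M).eval (zz M i) = 0 := by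
  have hp := ph_pos (M := M) (by omega)
  have h := M_ph (M := M) (by omega)
  have hi : (((i : ℕ)) : ℝ) ≤ M - 3 := by
    have : (i : ℕ) + 3 ≤ M := by have := i.2; omega
    have : (((i : ℕ) + 3 : ℕ) : ℝ) ≤ M := by exact_mod_cast this
    push_cast at this
    linarith
  have h1 := fp_eval_mul_sin (M := M) (((M : ℝ) - (i : ℕ)) * ph M)
  have h2 : Real.sin ((M : ℝ) * (((M : ℝ) - (i : ℕ)) * ph M)) = 0 := by
    have : (M : ℝ) * (((M : ℝ) - (i : ℕ)) * ph M) = ((M - (i : ℕ) : ℤ) : ℝ) * Real.pi := by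
      push_cast
      linear_combination ((M : ℝ) - (i : ℕ)) * h
    rw [this, Real.sin_int_mul_pi]
  rw [h2, mul_zero] at h1
  by_cases h0 : (i : ℕ) = 0
  · unfold zz
    unfold fp
    rw [h0]
    simp only [Nat.cast_zero, sub_zero]
    rw [h, Real.cos_pi]
    simp
  · have hi1 : (1 : ℝ) ≤ (i : ℕ) := by exact_mod_cast (by omega : 1 ≤ (i : ℕ))
    have h3 : 0 < Real.sin (((M : ℝ) - (i : ℕ)) * ph M) := by
      apply Real.sin_pos_of_pos_of_lt_pi
      · have : 0 < (M : ℝ) - (i : ℕ) := by linarith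
        positivity
      · nlinarith
    rcases mul_eq_zero.mp h1 with h4 | h4
    · exact h4
    · exact absurd h4 h3.ne'

theorem zz_le {M : ℕ} (hM : 4 ≤ M) (i : Fin (M - 2)) : zz M i ≤ Real.cos (3 * ph M) := by
  have hp := ph_pos (M := M) (by omega)
  have h := M_ph (M := M) (by omega)
  have hi : (((i : ℕ)) : ℝ) ≤ M - 3 := by
    have : (i : ℕ) + 3 ≤ M := by have := i.2; omega
    have : (((i : ℕ) + 3 : ℕ) : ℝ) ≤ M := by exact_mod_cast this
    push_cast at this
    linarith
  have hi0 : (0 : ℝ) ≤ (i : ℕ) := Nat.cast_nonneg _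
  unfold zz
  apply Real.cos_le_cos_of_nonneg_of_le_pi
  · positivity
  · nlinarith
  · nlinarith

theorem fp_natDegree {M : ℕ} (hM : 4 ≤ M) : (fp M).natDegree = (M - 2) + 2 ∧ 0 < (fp M).leadingCoeff := by
  have e : ((M : ℤ) - 1) = ((M - 1 : ℕ) : ℤ) := by omega
  have h1 : (1 + X : ℝ[X]) = X + C 1 := by rw [map_one]; ring
  have hU := Chebyshev.natDegree_U_natCast ℝ (M - 1)
  have hL := Chebyshev.leadingCoeff_U_natCast ℝ (M - 1)
  unfold fp
  rw [e, h1]
  constructor
  · rw [natDegree_mul (X_add_C_ne_zero 1) (Chebyshev.U_ne_zero ℝ _ (by omega)), natDegree_X_add_C, hU]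
    omega
  · rw [leadingCoeff_mul, leadingCoeff_X_add_C, hL]
    positivity

theorem one_change (hRC : S_RC) (hSG : S_SG) {M : ℕ} (hM : 4 ≤ M) :
    ∀ x y : ℝ, Real.cos (3 * ph M) ≤ x → x < y → 0 < (Pp M).eval x → 0 ≤ (Pp M).eval y :=
  hRC (fp M) (M - 2) (zz M) (Real.cos (3 * ph M)) (zz_mono hM) (zz_zero hM) (zz_le hM)
    (fp_natDegree hM).1 (by omega) (fp_natDegree hM).2 (hSG M hM)

/-- first and second order consequences of the polynomial identity -/
theorem K_id (hC : S_CLO) {M : ℕ} (hM : 3 ≤ M) :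
    (X - C (Real.cos (2 * ph M))) ^ 3 * derivative (Xp M)
      = - C (1 / 2) * (X - C (Real.cos (2 * ph M)))
        + C (Real.sin (ph M) ^ 2 / (M : ℝ)) *
          ((X - C (Real.cos (2 * ph M))) * derivative (fp M) - 2 * fp M) := by
  have h := fp_id hC hM
  have hd := congrArg derivative h
  simp only [derivative_mul, derivative_add, derivative_pow, derivative_sub, derivative_X,
    derivative_C, sub_zero, zero_mul, zero_add, mul_one] at hd
  have h2 : (C ((2 : ℕ) : ℝ) : ℝ[X]) = 2 := by rw [C_eq_natCast]; norm_num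
  rw [h2, show (2 - 1 : ℕ) = 1 from rfl, pow_one] at hd
  linear_combination (X - C (Real.cos (2 * ph M))) * hd - 2 * h

theorem K_id2 (hC : S_CLO) {M : ℕ} (hM : 3 ≤ M) :
    derivative^[2] ((X - C (Real.cos (2 * ph M))) ^ 3 * derivative (Xp M))
      = C (Real.sin (ph M) ^ 2 / (M : ℝ)) * (X - C (Real.cos (2 * ph M))) * Pp M := by
  rw [K_id hC hM]
  unfold Pp
  simp only [Function.iterate_succ, Function.iterate_zero, Function.comp, id]
  simp only [derivative_mul, derivative_add, derivative_sub, derivative_X, derivative_neg,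
    derivative_C, sub_zero, zero_mul, zero_add, mul_one, derivative_ofNat, neg_zero,
    derivative_one]
  ring

end Pool.Agent.Y372.UF
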