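import Pool.Agent.Y372.UF.Mono

set_option autoImplicit false

open Polynomial

namespace Pool.Agent.Y372.UF

theorem fp_deriv {M : ℕ} (t : ℝ) :
    - (derivative (fp M)).eval (Real.cos t) * Real.sin t ^ 2 + (fp M).eval (Real.cos t) * Real.cos t
      = - Real.sin t * Real.sin ((M : ℝ) * t)
        + (1 + Real.cos t) * ((M : ℝ) * Real.cos ((M : ℝ) * t)) := by
  have h1 : HasDerivAt (fun t : ℝ => (fp M).eval (Real.cos t) * Real.sin t)
      ((derivative (fp M)).eval (Real.cos t) * (- Real.sin t) * Real.sin t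
        + (fp M).eval (Real.cos t) * Real.cos t) t :=
    (((fp M).hasDerivAt (Real.cos t)).comp t (Real.hasDerivAt_cos t)).mul (Real.hasDerivAt_sin t)
  have h2 : HasDerivAt (fun t : ℝ => (1 + Real.cos t) * Real.sin ((M : ℝ) * t))
      ((- Real.sin t) * Real.sin ((M : ℝ) * t)
        + (1 + Real.cos t) * (Real.cos ((M : ℝ) * t) * (M : ℝ))) t := by
    have ha : HasDerivAt (fun t : ℝ => 1 + Real.cos t) (- Real.sin t) t :=
      (Real.hasDerivAt_cos t).const_add 1
    have hb : HasDerivAt (fun t : ℝ => Real.sin ((M : ℝ) * t)) (Real.cos ((M : ℝ) * t) * (M : ℝ)) t := by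
      have hc : HasDerivAt (fun t : ℝ => (M : ℝ) * t) (M : ℝ) t := by
        simpa using (hasDerivAt_id t).const_mul (M : ℝ)
      exact hc.sin
    exact ha.mul hb
  have h3 : (fun t : ℝ => (fp M).eval (Real.cos t) * Real.sin t)
      = fun t : ℝ => (1 + Real.cos t) * Real.sin ((M : ℝ) * t) := by
    funext s; exact fp_eval_mul_sin s
  rw [h3] at h1
  have := h1.unique h2
  linear_combination this

theorem v_nonpos (hC : S_CLO) (hT : S_TRIG) {M : ℕ} (hM : 4 ≤ M) (x : ℝ) (h1 : -1 < x)
    (h2 : x ≤ Real.cos (3 * ph M)) : (derivative (Xp M)).eval x ≤ 0 := by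
  have hp := ph_pos (M := M) (by omega)
  have hMph := M_ph (M := M) (by omega)
  have hp3 := ph_lt (M := M) (by omega)
  have hM4 : (4 : ℝ) ≤ M := by exact_mod_cast hM
  have hpi : 4 * ph M ≤ Real.pi := by nlinarith
  have hx1 : x < 1 := by
    refine lt_of_le_of_lt h2 ?_
    have := Real.cos_lt_cos_of_nonneg_of_le_pi le_rfl hp3 (by positivity : (0:ℝ) < 3 * ph M)
    rwa [Real.cos_zero] at this
  obtain ⟨t, ht3, ht1, rfl⟩ : ∃ t : ℝ, 3 * ph M ≤ t ∧ t < Real.pi ∧ Real.cos t = x := by
    refine ⟨Real.arccos x, ?_, ?_, Real.cos_arccos h1.le hx1.le⟩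
    · rw [← Real.arccos_cos (by positivity : (0:ℝ) ≤ 3 * ph M) hp3]
      exact Real.arccos_le_arccos h2
    · refine lt_of_le_of_ne (Real.arccos_le_pi x) ?_
      intro h
      rw [Real.arccos_eq_pi] at h
      linarith
  have ht0 : 0 < t := by linarith
  have hT' := hT M hM t ht3 ht1
  have hS : 0 < Real.sin (t / 2) := Real.sin_pos_of_pos_of_lt_pi (by linarith) (by linarith)
  have hCc : 0 < Real.cos (t / 2) := Real.cos_pos_of_mem_Ioo ⟨by linarith, by linarith⟩
  have hsi : 0 < Real.sin t := Real.sin_pos_of_pos_of_lt_pi ht0 ht1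
  have e1 : Real.sin t = 2 * Real.sin (t / 2) * Real.cos (t / 2) := by
    rw [← Real.sin_two_mul]; congr 1; ring
  have e2 : Real.cos t = 1 - 2 * Real.sin (t / 2) ^ 2 := by
    have := Real.cos_two_mul' (t / 2)
    have h3 : 2 * (t / 2) = t := by ring
    rw [h3] at this
    nlinarith [Real.sin_sq_add_cos_sq (t / 2)]
  have e4 : Real.cos (2 * ph M) = 1 - 2 * Real.sin (ph M) ^ 2 := by
    have := Real.cos_two_mul' (ph M)
    nlinarith [Real.sin_sq_add_cos_sq (ph M)]
  have hq : 0 < Real.sin (t / 2) ^ 2 - Real.sin (ph M) ^ 2 := by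
    have : Real.sin (ph M) < Real.sin (t / 2) := by
      apply Real.sin_lt_sin_of_lt_of_le_pi_div_two <;> linarith
    have h0 := sin_ph_pos (M := M) (by omega)
    nlinarith
  set S := Real.sin (t / 2) with hSd
  set s0 := Real.sin (ph M) with hs0
  set σ := Real.sin ((M : ℝ) * t) with hσ
  set γ := Real.cos ((M : ℝ) * t) with hγ
  set si := Real.sin t with hsid
  set q := S ^ 2 - s0 ^ 2 with hqd
  have hsq : si ^ 2 = (1 - Real.cos t) * (1 + Real.cos t) := by
    have := Real.sin_sq_add_cos_sq t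
    rw [← hsid] at this
    linear_combination this
  have h1c : 0 < 1 + Real.cos t := by linarith
  have e5 : 1 - Real.cos t = 2 * S ^ 2 := by rw [e2]; ring
  have hf : (fp M).eval (Real.cos t) = si * σ / (2 * S ^ 2) := by
    have h := fp_eval_mul_sin (M := M) t
    rw [eq_div_iff (by positivity)]
    have : ((fp M).eval (Real.cos t) * (2 * S ^ 2)) * (si * (1 + Real.cos t))
        = (si * σ) * (si * (1 + Real.cos t)) := by
      rw [← e5]
      linear_combination (1 - Real.cos t) * (1 + Real.cos t) * h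
        - σ * (1 + Real.cos t) * hsq
    exact mul_right_cancel₀ (by positivity) this
  have hf' : (derivative (fp M)).eval (Real.cos t) = (σ / si - M * γ) / (2 * S ^ 2) := by
    have h := fp_deriv (M := M) t
    have h0 := fp_eval_mul_sin (M := M) t
    rw [eq_div_iff (by positivity), ← e5]
    have : ((derivative (fp M)).eval (Real.cos t) * (1 - Real.cos t)) * (si * (1 + Real.cos t))
        = (σ / si - M * γ) * (si * (1 + Real.cos t)) := by
      have h5 : (σ / si - M * γ) * (si * (1 + Real.cos t))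
          = σ * (1 + Real.cos t) - M * γ * (si * (1 + Real.cos t)) := by
        field_simp
      rw [h5]
      linear_combination -(derivative (fp M)).eval (Real.cos t) * si * hsq - si * h
        + Real.cos t * h0 + σ * hsq
    exact mul_right_cancel₀ (by positivity) this
  have hK := congrArg (eval (Real.cos t)) (K_id hC (M := M) (by omega))
  have h22 : (2 : ℝ[X]) = C 2 := (map_ofNat C 2).symm
  rw [h22] at hK
  simp only [eval_mul, eval_pow, eval_sub, eval_add, eval_neg, eval_X, eval_C] at hK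
  rw [hf, hf'] at hK
  have e6 : Real.cos t - Real.cos (2 * ph M) = -2 * q := by
    rw [e2, e4, hqd]; ring
  rw [e6] at hK
  have hM0 : (0 : ℝ) < M := by linarith
  have e7 : -(1 / 2) * (-2 * q) + s0 ^ 2 / (M : ℝ) *
      (-2 * q * ((σ / si - M * γ) / (2 * S ^ 2)) - 2 * (si * σ / (2 * S ^ 2)))
      = q / S ^ 2 * (S ^ 2 + s0 ^ 2 * γ - s0 ^ 2 / (M : ℝ) * (1 / si + si / q) * σ) := by
    have hq0 : q ≠ 0 := hq.ne'
    field_simp
    ring
  rw [e7] at hK
  have h8 : 0 ≤ q / S ^ 2 * (S ^ 2 + s0 ^ 2 * γ - s0 ^ 2 / (M : ℝ) * (1 / si + si / q) * σ) := by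
    apply mul_nonneg (by positivity)
    linarith
  rw [← hK] at h8
  by_contra hneg
  push Not at hneg
  have : (-2 * q) ^ 3 * (derivative (Xp M)).eval (Real.cos t) < 0 := by
    apply mul_neg_of_neg_of_pos _ hneg
    have : (-2 * q) ^ 3 = -(8 * q ^ 3) := by ring
    rw [this]
    have : 0 < q ^ 3 := by positivity
    linarith
  linarith

theorem qc (hC : S_CLO) (hT : S_TRIG) (hRC : S_RC) (hSG : S_SG) (hI : S_INH) {M : ℕ} (hM : 4 ≤ M)
    (x y z : ℝ) (hx : -1 ≤ x) (hxy : x ≤ y) (hyz : y ≤ z) (hz : z ≤ 1) :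
    (Xp M).eval y ≤ max ((Xp M).eval x) ((Xp M).eval z) := by
  have hp := ph_pos (M := M) (by omega)
  have hp3 := ph_lt (M := M) (by omega)
  by_contra h
  push Not at h
  rw [max_lt_iff] at h
  have hxy' : x < y := lt_of_le_of_ne hxy (by rintro rfl; exact lt_irrefl _ h.1)
  have hyz' : y < z := lt_of_le_of_ne hyz (by rintro rfl; exact lt_irrefl _ h.2)
  obtain ⟨a, ha, hae⟩ := exists_hasDerivAt_eq_slope (fun s => (Xp M).eval s)
    (fun s => (derivative (Xp M)).eval s) hxy' (Xp M).continuous.continuousOn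
    (fun s _ => (Xp M).hasDerivAt s)
  obtain ⟨b, hb, hbe⟩ := exists_hasDerivAt_eq_slope (fun s => (Xp M).eval s)
    (fun s => (derivative (Xp M)).eval s) hyz' (Xp M).continuous.continuousOn
    (fun s _ => (Xp M).hasDerivAt s)
  have hva : 0 < (derivative (Xp M)).eval a := by
    rw [hae]
    apply div_pos <;> linarith [h.1]
  have hvb : (derivative (Xp M)).eval b < 0 := by
    rw [hbe]
    apply div_neg_of_neg_of_pos <;> linarith [h.2]
  have hab : Real.cos (3 * ph M) ≤ a := by
    by_contra hlt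
    push Not at hlt
    have := v_nonpos hC hT hM a (lt_of_le_of_lt hx ha.1) hlt.le
    linarith
  have hM3 : 3 ≤ M := by omega
  have h5 := hI (derivative (Xp M)) (Pp M) (Real.sin (ph M) ^ 2 / (M : ℝ)) (Real.cos (2 * ph M))
    (Real.cos (3 * ph M))
    (by
      have h0 := sin_ph_pos (M := M) (by omega)
      have : (0 : ℝ) < M := by exact_mod_cast (by omega : 0 < M)
      positivity)
    (Real.cos_lt_cos_of_nonneg_of_le_pi (by positivity) hp3 (by linarith))
    (by
      have := Real.cos_lt_cos_of_nonneg_of_le_pi le_rfl (by linarith : 2 * ph M ≤ Real.pi)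
        (by positivity : (0:ℝ) < 2 * ph M)
      rwa [Real.cos_zero] at this)
    (K_id2 hC hM3)
    (fun x y h1 h2 _ h3 => one_change hRC hSG hM x y h1 h2 h3)
    a b hab (by linarith [ha.2, hb.1]) (by linarith [hb.2]) hva
  linarith

end Pool.Agent.Y372.UF
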